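import Pool.Agent.Q129.PT.Bcm
import Pool.Agent.Q91.PT.Stm4

/-! # Project PT, jobs BC2 and TAL: binomial probabilities to first order, tails -/

set_option autoImplicit false

namespace Pool.Agent.Q129.PT

open Finset

open Pool.Agent.Q91.PT (bn)

noncomputable section

/-- the second order error -/
def e2 (K : ℕ) (j : ℤ) : ℝ := (((K : ℝ) - 2 * j) / K) ^ 2 + 1 / K

/-- the relative deviation -/
def xx (K : ℕ) (j : ℤ) : ℝ := ((K : ℝ) - 2 * j) / K

lemma e2_eq (K : ℕ) (j : ℤ) : e2 K j = xx K j ^ 2 + 1 / K := rfl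

lemma e2_nonneg (K : ℕ) (j : ℤ) : 0 ≤ e2 K j := by
  unfold e2
  positivity

lemma xx_abs {K : ℕ} {j : ℤ} (h : Cen K j) : |xx K j| ≤ 1 / 3 := by
  obtain ⟨h1, h2⟩ := h
  have hK0 : (0 : ℝ) < K := by exact_mod_cast (by omega : 0 < K)
  unfold xx
  rw [abs_div, abs_of_pos hK0, div_le_iff₀ hK0]
  have h3 : (3 : ℝ) * |2 * (j : ℝ) - K| ≤ K := by exact_mod_cast h2
  rw [abs_sub_comm] at h3
  linarith

lemma s2_j (K : ℕ) (j : ℤ) (h : Cen K j) :
    |bn K (j + 1) - bn K j * (1 + 2 * xx K j)| ≤ 10 * (bn K j * e2 K j) := by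
  have hx := xx_abs h
  obtain ⟨h1, h2⟩ := h
  have hj : 0 ≤ j := by
    rcases abs_cases (2 * j - K) with h | h <;> omega
  obtain ⟨m, rfl⟩ := Int.eq_ofNat_of_zero_le hj
  have hm : m ≤ K := by
    rcases abs_cases (2 * (m : ℤ) - K) with h | h <;> omega
  have hm3 : K ≤ 3 * m := by
    rcases abs_cases (2 * (m : ℤ) - K) with h | h <;> omega
  have hK0 : (0 : ℝ) < K := by exact_mod_cast (by omega : 0 < K)
  have e1 : bn K ((m : ℤ) + 1) * (m + 1) = bn K m * (K - m) := by
    have : ((m : ℤ) + 1) = ((m + 1 : ℕ) : ℤ) := by push_cast; ring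
    rw [this, bn_nat, bn_nat]
    have h3 := Nat.choose_succ_right_eq K m
    have h4 : ((K.choose (m + 1) : ℝ)) * (m + 1) = K.choose m * (K - m) := by
      rw [← Nat.cast_sub hm]
      exact_mod_cast h3
    field_simp
    exact h4
  have hmp : (0 : ℝ) < (m : ℝ) + 1 := by positivity
  have hxm : (m : ℝ) = K * (1 - xx K m) / 2 := by
    unfold xx
    rw [Int.cast_natCast]
    field_simp
    ring
  have e3 : bn K ((m : ℤ) + 1) - bn K m * (1 + 2 * xx K m) =
      bn K m * (K * xx K m ^ 2 - (1 + 2 * xx K m)) / (m + 1) := by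
    rw [eq_div_iff hmp.ne', sub_mul, e1]
    have : (K : ℝ) - m - (1 + 2 * xx K m) * (m + 1) = K * xx K m ^ 2 - (1 + 2 * xx K m) := by
      generalize xx K m = x at *
      rw [hxm]
      ring
    calc bn K m * (K - m) - bn K m * (1 + 2 * xx K m) * (m + 1)
        = bn K m * ((K : ℝ) - m - (1 + 2 * xx K m) * (m + 1)) := by ring
      _ = _ := by rw [this]
  have hb := bn_nonneg K m
  rw [e3, abs_div, abs_mul, abs_of_nonneg hb, abs_of_pos hmp, div_le_iff₀ hmp]
  have h5 : |(K : ℝ) * xx K m ^ 2 - (1 + 2 * xx K m)| ≤ K * xx K m ^ 2 + 2 := by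
    have h0 : 0 ≤ (K : ℝ) * xx K m ^ 2 := by positivity
    rw [abs_le] at hx ⊢
    constructor <;> linarith [hx.1, hx.2]
  have h6 : (K : ℝ) * xx K m ^ 2 + 2 ≤ 10 * e2 K m * (m + 1) := by
    have h7 : (K : ℝ) ≤ 3 * m := by exact_mod_cast hm3
    have h8 : (K : ℝ) * e2 K m = K * xx K m ^ 2 + 1 := by
      rw [e2_eq]
      field_simp
    have h9 : 0 ≤ e2 K m := e2_nonneg K m
    have h10 : 2 * ((K : ℝ) * e2 K m) ≤ 10 * e2 K m * (m + 1) := by nlinarith
    have h0 : 0 ≤ (K : ℝ) * xx K m ^ 2 := by positivity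
    linarith
  calc bn K m * |(K : ℝ) * xx K m ^ 2 - (1 + 2 * xx K m)| ≤ bn K m * (10 * e2 K m * (m + 1)) :=
        mul_le_mul_of_nonneg_left (h5.trans h6) hb
    _ = _ := by ring

lemma s2_j' (K : ℕ) (j : ℤ) (h : Cen K j) :
    |bn K (j - 1) - bn K j * (1 - 2 * xx K j)| ≤ 10 * (bn K j * e2 K j) := by
  obtain ⟨h1, h2⟩ := h
  have hj : 1 ≤ j := by
    rcases abs_cases (2 * j - K) with h | h <;> omega
  have hjK : j ≤ K := by
    rcases abs_cases (2 * j - K) with h | h <;> omega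
  have h3 : |2 * ((K : ℤ) - j) - K| = |2 * j - K| := by
    rw [← abs_neg]
    congr 1
    ring
  have h4 := s2_j K (K - j) ⟨h1, by rw [h3]; exact h2⟩
  have hxs : xx K (K - j) = -xx K j := by
    unfold xx
    push_cast
    ring
  have hes : e2 K (K - j) = e2 K j := by
    rw [e2_eq, e2_eq, hxs]
    ring
  rw [hes, hxs, bn_symm K j (by omega) hjK] at h4
  have h5 : (K : ℤ) - j + 1 = K - (j - 1) := by ring
  rw [h5, bn_symm K (j - 1) (by omega) (by omega)] at h4
  have h6 : 1 + 2 * -xx K j = 1 - 2 * xx K j := by ring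
  rw [h6] at h4
  exact h4

lemma s2_K (K : ℕ) (j : ℤ) (h : Cen K j) :
    |bn (K + 1) j - bn K j * (1 - xx K j)| ≤ 10 * (bn K j * e2 K j) := by
  have hx := xx_abs h
  obtain ⟨h1, h2⟩ := h
  have hj : 0 ≤ j := by
    rcases abs_cases (2 * j - K) with h | h <;> omega
  obtain ⟨m, rfl⟩ := Int.eq_ofNat_of_zero_le hj
  have hm : m ≤ K := by
    rcases abs_cases (2 * (m : ℤ) - K) with h | h <;> omega
  have hm3 : K ≤ 3 * (K - m) := by
    rcases abs_cases (2 * (m : ℤ) - K) with h | h <;> omega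
  have hK0 : (0 : ℝ) < K := by exact_mod_cast (by omega : 0 < K)
  have hmK : (m : ℝ) ≤ K := by exact_mod_cast hm
  have e1 : bn (K + 1) (m : ℤ) * (2 * (K + 1 - m)) = bn K m * (K + 1) := by
    rw [bn_nat, bn_nat]
    have h3 := Nat.choose_mul_succ_eq K m
    have h4 : (K.choose m : ℝ) * (K + 1) = (K + 1).choose m * (K + 1 - m) := by
      have h5 : ((K : ℝ) + 1 - m) = ((K + 1 - m : ℕ) : ℝ) := by
        rw [Nat.cast_sub (by omega)]
        push_cast
        ring
      rw [h5]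
      exact_mod_cast h3
    rw [pow_succ]
    field_simp
    linarith
  have hmp : (0 : ℝ) < 2 * ((K : ℝ) + 1 - m) := by linarith
  have hxm : (m : ℝ) = K * (1 - xx K m) / 2 := by
    unfold xx
    rw [Int.cast_natCast]
    field_simp
    ring
  have e3 : bn (K + 1) (m : ℤ) - bn K m * (1 - xx K m) =
      bn K m * (K * xx K m ^ 2 - (1 - 2 * xx K m)) / (2 * (K + 1 - m)) := by
    rw [eq_div_iff hmp.ne', sub_mul, e1]
    have : (K : ℝ) + 1 - (1 - xx K m) * (2 * (K + 1 - m)) = K * xx K m ^ 2 - (1 - 2 * xx K m) := by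
      generalize xx K m = x at *
      rw [hxm]
      ring
    calc bn K m * (K + 1) - bn K m * (1 - xx K m) * (2 * (K + 1 - m))
        = bn K m * ((K : ℝ) + 1 - (1 - xx K m) * (2 * (K + 1 - m))) := by ring
      _ = _ := by rw [this]
  have hb := bn_nonneg K m
  rw [e3, abs_div, abs_mul, abs_of_nonneg hb, abs_of_pos hmp, div_le_iff₀ hmp]
  have h5 : |(K : ℝ) * xx K m ^ 2 - (1 - 2 * xx K m)| ≤ K * xx K m ^ 2 + 2 := by
    have h0 : 0 ≤ (K : ℝ) * xx K m ^ 2 := by positivity
    rw [abs_le] at hx ⊢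
    constructor <;> linarith [hx.1, hx.2]
  have h6 : (K : ℝ) * xx K m ^ 2 + 2 ≤ 10 * e2 K m * (2 * (K + 1 - m)) := by
    have h7 : (K : ℝ) ≤ 3 * (K - m) := by
      rw [← Nat.cast_sub hm]
      exact_mod_cast hm3
    have h8 : (K : ℝ) * e2 K m = K * xx K m ^ 2 + 1 := by
      rw [e2_eq]
      field_simp
    have h9 : 0 ≤ e2 K m := e2_nonneg K m
    have h10 : 2 * ((K : ℝ) * e2 K m) ≤ 10 * e2 K m * (2 * (K + 1 - m)) := by nlinarith
    have h0 : 0 ≤ (K : ℝ) * xx K m ^ 2 := by positivity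
    linarith
  calc bn K m * |(K : ℝ) * xx K m ^ 2 - (1 - 2 * xx K m)| ≤
      bn K m * (10 * e2 K m * (2 * (K + 1 - m))) :=
        mul_le_mul_of_nonneg_left (h5.trans h6) hb
    _ = _ := by ring

lemma s2_K' (K : ℕ) (j : ℤ) (h : Cen (K + 1) j) :
    |bn K j - bn (K + 1) j * (1 + xx (K + 1) j)| ≤ 10 * (bn (K + 1) j * e2 (K + 1) j) := by
  obtain ⟨h1, h2⟩ := h
  have hj : 0 ≤ j := by
    rcases abs_cases (2 * j - (K + 1 : ℕ)) with h | h <;> omega
  obtain ⟨m, rfl⟩ := Int.eq_ofNat_of_zero_le hj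
  have hm : m ≤ K := by
    rcases abs_cases (2 * (m : ℤ) - (K + 1 : ℕ)) with h | h <;> omega
  have e1 : bn (K + 1) (m : ℤ) * (2 * (K + 1 - m)) = bn K m * (K + 1) := by
    rw [bn_nat, bn_nat]
    have h3 := Nat.choose_mul_succ_eq K m
    have h4 : (K.choose m : ℝ) * (K + 1) = (K + 1).choose m * (K + 1 - m) := by
      have h5 : ((K : ℝ) + 1 - m) = ((K + 1 - m : ℕ) : ℝ) := by
        rw [Nat.cast_sub (by omega)]
        push_cast
        ring
      rw [h5]
      exact_mod_cast h3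
    rw [pow_succ]
    field_simp
    linarith
  have hK1 : (0 : ℝ) < (K : ℝ) + 1 := by positivity
  have e3 : bn K m - bn (K + 1) (m : ℤ) * (1 + xx (K + 1) m) = 0 := by
    have h4 : bn K m = bn (K + 1) (m : ℤ) * (2 * (K + 1 - m)) / (K + 1) := by
      rw [eq_div_iff hK1.ne', e1]
    rw [h4]
    unfold xx
    rw [Int.cast_natCast]
    push_cast
    field_simp
    ring
  rw [e3, abs_zero]
  have hb := bn_nonneg (K + 1) m
  have he := e2_nonneg (K + 1) m
  positivity

/-- all steps -/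
lemma s2_any (K K' : ℕ) (j j' : ℤ) (h : Cen K j) (hs : |(K' : ℤ) - K| + |j' - j| ≤ 1) :
    |bn K' j' - bn K j * (1 - ((((K' : ℤ) - K + 2 * (j - j') : ℤ)) : ℝ) * xx K j)| ≤
      10 * (bn K j * e2 K j) := by
  rcases abs_cases ((K' : ℤ) - K) with h1 | h1 <;> rcases abs_cases (j' - j) with h2 | h2
  · have : (K' = K ∧ j' = j) ∨ (K' = K ∧ j' = j + 1) ∨ (K' = K + 1 ∧ j' = j) := by omega
    rcases this with ⟨rfl, rfl⟩ | ⟨rfl, rfl⟩ | ⟨rfl, rfl⟩
    · have hb := bn_nonneg K' j'
      have he := e2_nonneg K' j'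
      simp only [sub_self, mul_zero, add_zero, Int.cast_zero, zero_mul, sub_zero, mul_one, abs_zero]
      positivity
    · have e : ((((K' : ℤ) - K' + 2 * (j - (j + 1)) : ℤ)) : ℝ) = -2 := by push_cast; ring
      rw [e]
      have := s2_j _ _ h
      have e' : 1 - -2 * xx K' j = 1 + 2 * xx K' j := by ring
      rw [e']
      exact this
    · have e : (((((K + 1 : ℕ) : ℤ) - K + 2 * (j' - j') : ℤ)) : ℝ) = 1 := by push_cast; ring
      rw [e, one_mul]
      exact s2_K _ _ h
  · have : (K' = K ∧ j' = j - 1) := by omega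
    obtain ⟨rfl, rfl⟩ := this
    have e : ((((K' : ℤ) - K' + 2 * (j - (j - 1)) : ℤ)) : ℝ) = 2 := by push_cast; ring
    rw [e]
    exact s2_j' _ _ h
  · have : (K = K' + 1 ∧ j' = j) := by omega
    obtain ⟨rfl, rfl⟩ := this
    have e : ((((K' : ℤ) - (K' + 1 : ℕ) + 2 * (j' - j') : ℤ)) : ℝ) = -1 := by push_cast; ring
    rw [e]
    have e' : 1 - -1 * xx (K' + 1) j' = 1 + xx (K' + 1) j' := by ring
    rw [e']
    exact s2_K' _ _ h
  · omega

/-- a path, to first order -/
lemma path2 (K : ℕ) (j : ℤ) (hK : 10000 ≤ K) (hj : 8 * |2 * j - K| ≤ K) :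
    ∀ s : ℕ, s ≤ 40 → ∀ (K' : ℕ) (j' : ℤ), |(K' : ℤ) - K| + |j' - j| ≤ s →
    |bn K' j' - bn K j * (1 - ((((K' : ℤ) - K + 2 * (j - j') : ℤ)) : ℝ) * xx K j)| ≤
      (10000 : ℝ) ^ s * (bn K j * e2 K j) := by
  intro s
  have hb := bn_nonneg K j
  have he := e2_nonneg K j
  have hKr : (10000 : ℝ) ≤ K := by exact_mod_cast hK
  have hK0 : (0 : ℝ) < K := by linarith
  have hx0 : |xx K j| ≤ 1 / 8 := by
    unfold xx
    rw [abs_div, abs_of_pos hK0, div_le_iff₀ hK0, abs_sub_comm]
    have h4 : (8 : ℝ) * |2 * (j : ℝ) - K| ≤ K := by exact_mod_cast hj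
    linarith
  have hx0' := abs_le.1 hx0
  have hinv : (1 : ℝ) / K ≤ 1 / 10000 := one_div_le_one_div_of_le (by norm_num) hKr
  have hinv0 : (0 : ℝ) < 1 / K := by positivity
  have hxsq : xx K j ^ 2 ≤ 1 / 64 := by
    rw [← sq_abs]
    have : |xx K j| ^ 2 ≤ (1 / 8) ^ 2 := pow_le_pow_left₀ (abs_nonneg _) hx0 2
    linarith
  have he1 : e2 K j ≤ 1 := by
    rw [e2_eq]
    linarith
  induction s with
  | zero =>
    intro _ K' j' h
    have h1 := abs_nonneg ((K' : ℤ) - K)
    have h2 := abs_nonneg (j' - j)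
    have h3 : |(K' : ℤ) - K| = 0 := by push_cast at h; omega
    have h4 : |j' - j| = 0 := by push_cast at h; omega
    rw [abs_eq_zero] at h3 h4
    have h5 : K' = K := by omega
    have h6 : j' = j := by omega
    subst h5 h6
    simp only [sub_self, mul_zero, add_zero, Int.cast_zero, zero_mul, sub_zero, mul_one, abs_zero]
    positivity
  | succ s ih =>
    intro hs K' j' h
    obtain ⟨K1, j1, g1, g2⟩ : ∃ (K1 : ℕ) (j1 : ℤ), |(K1 : ℤ) - K| + |j1 - j| ≤ s ∧
        |(K' : ℤ) - K1| + |j' - j1| ≤ 1 := by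
      push_cast at h
      rcases lt_trichotomy K' K with hlt | heq | hgt
      · refine ⟨K' + 1, j', ?_, ?_⟩
        · rcases abs_cases ((K' : ℤ) - K) with h1 | h1 <;>
            rcases abs_cases (((K' + 1 : ℕ) : ℤ) - K) with h2 | h2 <;> push_cast at * <;> omega
        · rcases abs_cases ((K' : ℤ) - (K' + 1 : ℕ)) with h2 | h2 <;>
            rcases abs_cases (j' - j') with h3 | h3 <;> push_cast at * <;> omega
      · subst heq
        rw [sub_self, abs_zero, zero_add] at h
        rcases lt_trichotomy j' j with hlt | heq | hgt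
        · refine ⟨K', j' + 1, ?_, ?_⟩
          · rw [sub_self, abs_zero, zero_add]
            rcases abs_cases (j' - j) with h1 | h1 <;>
              rcases abs_cases (j' + 1 - j) with h2 | h2 <;> omega
          · rw [sub_self, abs_zero, zero_add]
            rcases abs_cases (j' - (j' + 1)) with h2 | h2 <;> omega
        · subst heq
          refine ⟨K', j', ?_, ?_⟩
          · simp
          · simp
        · refine ⟨K', j' - 1, ?_, ?_⟩
          · rw [sub_self, abs_zero, zero_add]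
            rcases abs_cases (j' - j) with h1 | h1 <;>
              rcases abs_cases (j' - 1 - j) with h2 | h2 <;> omega
          · rw [sub_self, abs_zero, zero_add]
            rcases abs_cases (j' - (j' - 1)) with h2 | h2 <;> omega
      · refine ⟨K' - 1, j', ?_, ?_⟩
        · have e : ((K' - 1 : ℕ) : ℤ) = K' - 1 := by
            rw [Nat.cast_sub (by omega)]
            simp
          rw [e]
          rcases abs_cases ((K' : ℤ) - K) with h1 | h1 <;>
            rcases abs_cases ((K' : ℤ) - 1 - K) with h2 | h2 <;> omega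
        · have e : ((K' - 1 : ℕ) : ℤ) = K' - 1 := by
            rw [Nat.cast_sub (by omega)]
            simp
          rw [e, sub_self, abs_zero, add_zero]
          rcases abs_cases ((K' : ℤ) - (K' - 1)) with h2 | h2 <;> omega
    have hsZ : (s : ℤ) ≤ 39 := by omega
    have i1 := ih (by omega) K1 j1 g1
    obtain ⟨lam, hlam⟩ : ∃ l : ℤ, l = (K1 : ℤ) - K + 2 * (j - j1) := ⟨_, rfl⟩
    obtain ⟨mu, hmu⟩ : ∃ l : ℤ, l = (K' : ℤ) - K1 + 2 * (j1 - j') := ⟨_, rfl⟩
    have hsum : (K' : ℤ) - K + 2 * (j - j') = lam + mu := by omega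
    rw [← hlam] at i1
    rw [hsum]
    have hlam80 : |lam| ≤ 80 := by
      rcases abs_cases ((K1 : ℤ) - K) with h1 | h1 <;>
        rcases abs_cases (j1 - j) with h2 | h2 <;>
        rcases abs_cases lam with h3 | h3 <;> omega
    have hmu2 : |mu| ≤ 2 := by
      rcases abs_cases ((K' : ℤ) - K1) with h1 | h1 <;>
        rcases abs_cases (j' - j1) with h2 | h2 <;>
        rcases abs_cases mu with h3 | h3 <;> omega
    have hd : |2 * j1 - K1| ≤ |2 * j - K| + 80 := by
      rcases abs_cases ((K1 : ℤ) - K) with h1 | h1 <;>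
        rcases abs_cases (j1 - j) with h2 | h2 <;>
        rcases abs_cases (2 * j1 - K1) with h3 | h3 <;>
        rcases abs_cases (2 * j - K) with h4 | h4 <;> omega
    have hd2 : |((K1 : ℤ) - 2 * j1) - (K - 2 * j)| ≤ 80 := by
      rcases abs_cases ((K1 : ℤ) - K) with h1 | h1 <;>
        rcases abs_cases (j1 - j) with h2 | h2 <;>
        rcases abs_cases (((K1 : ℤ) - 2 * j1) - (K - 2 * j)) with h3 | h3 <;> omega
    have hd3 : |(K : ℤ) - K1| ≤ 40 := by
      rcases abs_cases ((K1 : ℤ) - K) with h1 | h1 <;>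
        rcases abs_cases (j1 - j) with h2 | h2 <;>
        rcases abs_cases ((K : ℤ) - K1) with h3 | h3 <;> omega
    have hK1 : K ≤ K1 + 40 := by
      rcases abs_cases ((K : ℤ) - K1) with h3 | h3 <;> omega
    have hcen : Cen K1 j1 := ⟨by omega, by omega⟩
    have i2 := s2_any K1 K' j1 j' hcen g2
    rw [← hmu] at i2
    have hb1 := bn_nonneg K1 j1
    have hK1r : (K : ℝ) ≤ K1 + 40 := by exact_mod_cast hK1
    have hK10 : (0 : ℝ) < K1 := by linarith
    -- the difference of the `x`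
    have hxd : |xx K1 j1 - xx K j| ≤ 200 * (1 / K) := by
      have hd2r : |((K1 : ℝ) - 2 * j1) - (K - 2 * j)| ≤ 80 := by exact_mod_cast hd2
      have hd3r : |(K : ℝ) - K1| ≤ 40 := by exact_mod_cast hd3
      have e1 : xx K1 j1 - xx K j =
          ((((K1 : ℝ) - 2 * j1) - (K - 2 * j)) + xx K j * (K - K1)) / K1 := by
        unfold xx
        field_simp
        ring
      rw [e1, abs_div, abs_of_pos hK10, div_le_iff₀ hK10]
      have e2 : |(((K1 : ℝ) - 2 * j1) - (K - 2 * j)) + xx K j * (K - K1)| ≤ 80 + 1 / 8 * 40 := by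
        refine (abs_add_le _ _).trans (add_le_add hd2r ?_)
        rw [abs_mul]
        exact mul_le_mul hx0 hd3r (abs_nonneg _) (by norm_num)
      have e3 : (1 : ℝ) / 2 ≤ 1 / K * K1 := by
        rw [one_div_mul_eq_div, le_div_iff₀ hK0]
        linarith
      nlinarith
    have hxd' := abs_le.1 hxd
    have hx1 : |xx K1 j1| ≤ 1 / 3 := xx_abs hcen
    have hinv1 : (1 : ℝ) / K1 ≤ 2 * (1 / K) := by
      rw [div_le_iff₀ hK10]
      have : (1 : ℝ) / 2 ≤ 1 / K * K1 := by
        rw [one_div_mul_eq_div, le_div_iff₀ hK0]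
        linarith
      linarith
    have he2 : e2 K1 j1 ≤ 10 * e2 K j := by
      rw [e2_eq, e2_eq]
      have h1 : xx K1 j1 ^ 2 ≤ 2 * xx K j ^ 2 + 2 * (xx K1 j1 - xx K j) ^ 2 := by
        nlinarith [sq_nonneg (xx K1 j1 - 2 * xx K j)]
      have h2 : (xx K1 j1 - xx K j) ^ 2 ≤ 4 * (1 / K) := by
        rw [← sq_abs]
        calc |xx K1 j1 - xx K j| ^ 2 ≤ (200 * (1 / K)) ^ 2 :=
              pow_le_pow_left₀ (abs_nonneg _) hxd 2
          _ = 40000 * (1 / K) * (1 / K) := by ring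
          _ ≤ 4 * (1 / K) := by
              apply mul_le_mul_of_nonneg_right _ hinv0.le
              linarith
      nlinarith [sq_nonneg (xx K j)]
    have hlamr : |(lam : ℝ)| ≤ 80 := by exact_mod_cast hlam80
    have hmur : |(mu : ℝ)| ≤ 2 := by exact_mod_cast hmu2
    have hone : (1 : ℝ) ≤ 10000 ^ s := one_le_pow₀ (by norm_num)
    have hlx : |(lam : ℝ) * xx K j| ≤ 10 := by
      rw [abs_mul]
      calc |(lam : ℝ)| * |xx K j| ≤ 80 * (1 / 8) := mul_le_mul hlamr hx0 (abs_nonneg _) (by norm_num)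
        _ = 10 := by norm_num
    have hb2 : bn K1 j1 ≤ 12 * 10000 ^ s * bn K j := by
      have h1 := (abs_le.1 i1).2
      have h2 : (10000 : ℝ) ^ s * (bn K j * e2 K j) ≤ 10000 ^ s * (bn K j * 1) := by
        apply mul_le_mul_of_nonneg_left _ (by positivity)
        exact mul_le_mul_of_nonneg_left he1 hb
      have h3 : bn K j * (1 - (lam : ℝ) * xx K j) ≤ bn K j * 11 := by
        apply mul_le_mul_of_nonneg_left _ hb
        have := (abs_le.1 hlx).1
        linarith
      nlinarith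
    have he10 := e2_nonneg K1 j1
    have hbe : 0 ≤ bn K j * e2 K j := mul_nonneg hb he
    have t1 : 10 * (bn K1 j1 * e2 K1 j1) ≤ 1200 * 10000 ^ s * (bn K j * e2 K j) := by
      calc 10 * (bn K1 j1 * e2 K1 j1) ≤ 10 * ((12 * 10000 ^ s * bn K j) * (10 * e2 K j)) := by
            apply mul_le_mul_of_nonneg_left _ (by norm_num)
            exact mul_le_mul hb2 he2 he10 (by positivity)
        _ = _ := by ring
    have t2 : |(bn K1 j1 - bn K j * (1 - (lam : ℝ) * xx K j)) * (1 - (mu : ℝ) * xx K1 j1)| ≤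
        2 * 10000 ^ s * (bn K j * e2 K j) := by
      rw [abs_mul]
      have h1 : |1 - (mu : ℝ) * xx K1 j1| ≤ 2 := by
        have h2 : |(mu : ℝ) * xx K1 j1| ≤ 2 * (1 / 3) := by
          rw [abs_mul]
          exact mul_le_mul hmur hx1 (abs_nonneg _) (by norm_num)
        rw [abs_le] at h2 ⊢
        constructor <;> linarith [h2.1, h2.2]
      calc _ ≤ ((10000 : ℝ) ^ s * (bn K j * e2 K j)) * 2 :=
            mul_le_mul i1 h1 (abs_nonneg _) (by positivity)
        _ = _ := by ring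
    have t3 : |bn K j * (-(mu : ℝ) * (xx K1 j1 - xx K j) + lam * mu * xx K j * xx K1 j1)| ≤
        5000 * (bn K j * e2 K j) := by
      rw [abs_mul, abs_of_nonneg hb]
      have h1 : |-(mu : ℝ) * (xx K1 j1 - xx K j)| ≤ 400 * (1 / K) := by
        rw [abs_mul, abs_neg]
        calc |(mu : ℝ)| * |xx K1 j1 - xx K j| ≤ 2 * (200 * (1 / K)) :=
              mul_le_mul hmur hxd (abs_nonneg _) (by norm_num)
          _ = _ := by ring
      have h2 : |(lam : ℝ) * mu * xx K j * xx K1 j1| ≤ 160 * xx K j ^ 2 + 4000 * (1 / K) := by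
        have e1 : (lam : ℝ) * mu * xx K j * xx K1 j1 =
            lam * mu * xx K j ^ 2 + lam * mu * (xx K j * (xx K1 j1 - xx K j)) := by ring
        have hlm : |(lam : ℝ) * mu| ≤ 160 := by
          rw [abs_mul]
          calc |(lam : ℝ)| * |(mu : ℝ)| ≤ 80 * 2 := mul_le_mul hlamr hmur (abs_nonneg _) (by norm_num)
            _ = 160 := by norm_num
        rw [e1]
        refine (abs_add_le _ _).trans (add_le_add ?_ ?_)
        · rw [abs_mul, abs_of_nonneg (sq_nonneg (xx K j))]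
          exact mul_le_mul_of_nonneg_right hlm (sq_nonneg _)
        · rw [abs_mul, abs_mul (xx K j)]
          calc |(lam : ℝ) * mu| * (|xx K j| * |xx K1 j1 - xx K j|) ≤
                160 * (1 / 8 * (200 * (1 / K))) :=
                mul_le_mul hlm (mul_le_mul hx0 hxd (abs_nonneg _) (by norm_num))
                  (by positivity) (by norm_num)
            _ = 4000 * (1 / K) := by ring
      have h3 : |-(mu : ℝ) * (xx K1 j1 - xx K j) + lam * mu * xx K j * xx K1 j1| ≤
          5000 * e2 K j := by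
        refine (abs_add_le _ _).trans ((add_le_add h1 h2).trans ?_)
        rw [e2_eq]
        nlinarith [sq_nonneg (xx K j)]
      calc bn K j * |-(mu : ℝ) * (xx K1 j1 - xx K j) + lam * mu * xx K j * xx K1 j1| ≤
            bn K j * (5000 * e2 K j) := mul_le_mul_of_nonneg_left h3 hb
        _ = _ := by ring
    have split : bn K' j' - bn K j * (1 - ((lam + mu : ℤ) : ℝ) * xx K j) =
        (bn K' j' - bn K1 j1 * (1 - (mu : ℝ) * xx K1 j1)) +
        ((bn K1 j1 - bn K j * (1 - (lam : ℝ) * xx K j)) * (1 - (mu : ℝ) * xx K1 j1) +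
        bn K j * (-(mu : ℝ) * (xx K1 j1 - xx K j) + lam * mu * xx K j * xx K1 j1)) := by
      push_cast
      ring
    rw [split]
    have hp : (10000 : ℝ) ^ (s + 1) = 10000 * 10000 ^ s := by rw [pow_succ]; ring
    calc _ ≤ |bn K' j' - bn K1 j1 * (1 - (mu : ℝ) * xx K1 j1)| +
          (|(bn K1 j1 - bn K j * (1 - (lam : ℝ) * xx K j)) * (1 - (mu : ℝ) * xx K1 j1)| +
          |bn K j * (-(mu : ℝ) * (xx K1 j1 - xx K j) + lam * mu * xx K j * xx K1 j1)|) :=
          (abs_add_le _ _).trans (add_le_add le_rfl (abs_add_le _ _))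
      _ ≤ 1200 * 10000 ^ s * (bn K j * e2 K j) + (2 * 10000 ^ s * (bn K j * e2 K j) +
          5000 * (bn K j * e2 K j)) := add_le_add (i2.trans t1) (add_le_add t2 t3)
      _ ≤ (1200 * 10000 ^ s + (2 * 10000 ^ s + 5000 * 10000 ^ s)) * (bn K j * e2 K j) := by
          have : 5000 * (bn K j * e2 K j) ≤ 5000 * 10000 ^ s * (bn K j * e2 K j) := by
            apply mul_le_mul_of_nonneg_right _ hbe
            linarith
          nlinarith
      _ ≤ 10000 ^ (s + 1) * (bn K j * e2 K j) := by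
          apply mul_le_mul_of_nonneg_right _ hbe
          rw [hp]
          linarith

/-- JOB BC2 -/
theorem bc2 : Pool.Agent.Q91.PT.S_bc2 := by
  obtain ⟨W, hW⟩ : ∃ W : ℝ, W = 2 ^ 10000 := ⟨_, rfl⟩
  have hW0 : 0 < W := by
    rw [hW]
    exact pow_pos (by norm_num) _
  obtain ⟨V, hV⟩ : ∃ V : ℝ, V = 10000 ^ 40 := ⟨_, rfl⟩
  have hV0 : 0 < V := by
    rw [hV]
    exact pow_pos (by norm_num) _
  refine ⟨V + 1000000 * W, by positivity, ?_⟩
  intro K j κ β hK hκ hβ hj
  have hb := bn_nonneg K j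
  have he := e2_nonneg K j
  have hK0 : (0 : ℝ) < K := by exact_mod_cast hK
  show _ ≤ (V + 1000000 * W) * bn K j * e2 K j
  have hxx : ((K : ℝ) - 2 * j) / K = xx K j := rfl
  rw [hxx]
  by_cases hK1 : 10000 ≤ K
  · have hj8 : 8 * |2 * j - K| ≤ K := by
      have : (8 : ℝ) * |2 * (j : ℝ) - K| ≤ K := by linarith
      exact_mod_cast this
    have hnn : (0 : ℤ) ≤ K + κ := by
      rcases abs_cases κ with h | h <;> omega
    obtain ⟨K', hK'⟩ := Int.eq_ofNat_of_zero_le hnn
    rw [hK', Int.toNat_natCast]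
    have h1 := path2 K j hK1 hj8 40 le_rfl K' (j - β) (by
      rw [← hK']
      have e1 : (K : ℤ) + κ - K = κ := by ring
      have e2 : j - β - j = -β := by ring
      rw [e1, e2, abs_neg]
      push_cast
      omega)
    have e3 : (K' : ℤ) - K + 2 * (j - (j - β)) = κ + 2 * β := by omega
    rw [e3] at h1
    push_cast at h1
    refine h1.trans ?_
    rw [← hV, mul_assoc]
    apply mul_le_mul_of_nonneg_right _ (by positivity)
    exact le_add_of_nonneg_right (by positivity)
  · have hKr : (K : ℝ) ≤ 10000 := by exact_mod_cast (by omega : K ≤ 10000)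
    have hxa : |xx K j| ≤ 1 := by
      unfold xx
      rw [abs_div, abs_of_pos hK0, div_le_iff₀ hK0, abs_sub_comm]
      linarith
    have hκr : |(κ : ℝ)| ≤ 20 := by exact_mod_cast hκ
    have hβr : |(β : ℝ)| ≤ 20 := by exact_mod_cast hβ
    have h1 : |((κ : ℝ) + 2 * β) * xx K j| ≤ 60 := by
      rw [abs_mul]
      have h2 : |(κ : ℝ) + 2 * β| ≤ 60 := by
        rw [abs_le] at hκr hβr ⊢
        constructor <;> linarith [hκr.1, hκr.2, hβr.1, hβr.2]
      calc |(κ : ℝ) + 2 * β| * |xx K j| ≤ 60 * 1 := mul_le_mul h2 hxa (abs_nonneg _) (by norm_num)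
        _ = 60 := by norm_num
    have hb1 := bn_le_one K j
    have hb' := bn_nonneg ((K : ℤ) + κ).toNat (j - β)
    have hb1' := bn_le_one ((K : ℤ) + κ).toNat (j - β)
    have h3 : |bn K j * (1 - ((κ : ℝ) + 2 * β) * xx K j)| ≤ 61 := by
      rw [abs_mul, abs_of_nonneg hb]
      have h4 : |1 - ((κ : ℝ) + 2 * β) * xx K j| ≤ 61 := by
        rw [abs_le] at h1 ⊢
        constructor <;> linarith [h1.1, h1.2]
      calc bn K j * |1 - ((κ : ℝ) + 2 * β) * xx K j| ≤ 1 * 61 :=
            mul_le_mul hb1 h4 (abs_nonneg _) (by norm_num)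
        _ = 61 := by norm_num
    have h5 : |bn ((K : ℤ) + κ).toNat (j - β) -
        bn K j * (1 - ((κ : ℝ) + 2 * β) * xx K j)| ≤ 62 := by
      rw [abs_le] at h3 ⊢
      constructor <;> linarith [h3.1, h3.2]
    refine h5.trans ?_
    -- the lower bound
    have hj0 : 0 ≤ j ∧ j ≤ K := by
      have h6 : |2 * (j : ℝ) - K| ≤ K := by linarith
      have h7 : |2 * j - K| ≤ K := by exact_mod_cast h6
      rcases abs_cases (2 * j - K) with h | h <;> omega
    obtain ⟨m, rfl⟩ := Int.eq_ofNat_of_zero_le hj0.1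
    have hm : m ≤ K := by exact_mod_cast hj0.2
    have hbl : 1 / W ≤ bn K m := by
      rw [bn_nat]
      have h6 : (1 : ℝ) ≤ (K.choose m : ℝ) := by
        exact_mod_cast Nat.choose_pos hm
      have h7 : (2 : ℝ) ^ K ≤ W := by
        rw [hW]
        exact pow_le_pow_right₀ (by norm_num) (by omega)
      exact div_le_div₀ (by linarith) h6 (by positivity) h7
    have hel : 1 / 10000 ≤ e2 K m := by
      rw [e2_eq]
      have h8 : (1 : ℝ) / 10000 ≤ 1 / K := one_div_le_one_div_of_le hK0 hKr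
      have := sq_nonneg (xx K m)
      linarith
    have h9 : (1 : ℝ) / W * (1 / 10000) ≤ bn K m * e2 K m :=
      mul_le_mul hbl hel (by norm_num) hb
    calc (62 : ℝ) ≤ 1000000 * W * (1 / W * (1 / 10000)) := by
          rw [show 1000000 * W * (1 / W * (1 / 10000)) = 100 * (W * (1 / W)) by ring,
            mul_one_div_cancel hW0.ne']
          norm_num
      _ ≤ (V + 1000000 * W) * (bn K m * e2 K m) := by
          apply mul_le_mul (le_add_of_nonneg_left hV0.le) h9 (by positivity) (by positivity)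
      _ = _ := by ring

/-- JOB TAL -/
theorem tal : Pool.Agent.Q91.PT.S_tal := by
  refine ⟨Real.exp 2, 1 / 600, Real.exp_pos _, by norm_num, ?_⟩
  intro K K' j j' hK hKK hjj hj
  by_cases hK1 : 1000 ≤ K
  · have hKr : (1000 : ℝ) ≤ K := by exact_mod_cast hK1
    have g2 : K' ≤ K + 20 := by
      rcases abs_cases ((K' : ℤ) - K) with h1 | h1 <;> omega
    have g3 : K ≤ K' + 20 := by
      rcases abs_cases ((K' : ℤ) - K) with h1 | h1 <;> omega
    have g1 : |2 * j - K| ≤ |2 * j' - K'| + 60 := by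
      rcases abs_cases ((K' : ℤ) - K) with h1 | h1 <;>
        rcases abs_cases (j' - j) with h2 | h2 <;>
        rcases abs_cases (2 * j' - K') with h3 | h3 <;>
        rcases abs_cases (2 * j - K) with h4 | h4 <;> omega
    have g1r : |2 * (j : ℝ) - K| ≤ |2 * (j' : ℝ) - K'| + 60 := by exact_mod_cast g1
    have g2r : (K' : ℝ) ≤ K + 20 := by exact_mod_cast g2
    have hK'1 : 1 ≤ K' := by omega
    have hK'0 : (0 : ℝ) < K' := by exact_mod_cast hK'1
    have h1 : (K : ℝ) / 16 ≤ |2 * (j' : ℝ) - K'| := by linarith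
    have h2 : ((K : ℝ) / 16) ^ 2 ≤ (2 * (j' : ℝ) - K') ^ 2 := by
      rw [← sq_abs (2 * (j' : ℝ) - K')]
      exact pow_le_pow_left₀ (by positivity) h1 2
    have h3 : 1 / 600 * (K : ℝ) ≤ (2 * (j' : ℝ) - K') ^ 2 / (2 * K') := by
      rw [le_div_iff₀ (by positivity)]
      nlinarith
    calc bn K' j' ≤ Real.exp (-((2 * (j' : ℝ) - K') ^ 2 / (2 * K'))) := bn_exp K' hK'1 j'
      _ ≤ Real.exp (-(1 / 600) * K) := Real.exp_le_exp.2 (by linarith)
      _ ≤ Real.exp 2 * Real.exp (-(1 / 600) * K) := by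
          apply le_mul_of_one_le_left (Real.exp_pos _).le
          exact Real.one_le_exp (by norm_num)
  · have hKr : (K : ℝ) ≤ 1000 := by exact_mod_cast (by omega : K ≤ 1000)
    refine (bn_le_one K' j').trans ?_
    rw [← Real.exp_add]
    exact Real.one_le_exp (by linarith)

end

end Pool.Agent.Q129.PT
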