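import Pool.Agent.Q91.PT.Stm3

/-! # Project PT, job BCM: comparison of binomial probabilities -/

set_option autoImplicit false

namespace Pool.Agent.Q129.PT

open Finset

open Pool.Agent.Q91.PT (bn)

noncomputable section

lemma bn_nat (K m : ℕ) : bn K (m : ℤ) = (K.choose m : ℝ) / 2 ^ K := by
  unfold bn
  rw [if_pos (by positivity)]
  simp

lemma bn_nonneg (K : ℕ) (j : ℤ) : 0 ≤ bn K j := by
  unfold bn
  split_ifs <;> positivity

lemma bn_cosh (K : ℕ) (j : ℤ) (θ : ℝ) :
    bn K j * Real.exp (θ * (2 * (j : ℝ) - K)) ≤ Real.cosh θ ^ K := by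
  have h0 : (0 : ℝ) ≤ Real.cosh θ ^ K := pow_nonneg (Real.cosh_pos θ).le _
  by_cases hj : 0 ≤ j
  · obtain ⟨m, rfl⟩ := Int.eq_ofNat_of_zero_le hj
    by_cases hm : m ≤ K
    · have e1 : Real.cosh θ ^ K = ∑ i ∈ range (K + 1),
          (K.choose i : ℝ) / 2 ^ K * Real.exp (θ * (2 * (i : ℝ) - K)) := by
        rw [Real.cosh_eq, div_pow, add_pow, Finset.sum_div]
        apply Finset.sum_congr rfl
        intro i hi
        have hiK : i ≤ K := by
          have := Finset.mem_range.1 hi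
          omega
        rw [← Real.exp_nat_mul, ← Real.exp_nat_mul, ← Real.exp_add]
        have : (i : ℝ) * θ + ((K - i : ℕ) : ℝ) * -θ = θ * (2 * (i : ℝ) - K) := by
          rw [Nat.cast_sub hiK]
          ring
        rw [this]
        ring
      rw [e1, bn_nat]
      exact Finset.single_le_sum (f := fun i : ℕ => (K.choose i : ℝ) / 2 ^ K *
        Real.exp (θ * (2 * (i : ℝ) - K))) (fun i _ => by positivity)
        (Finset.mem_range.2 (by omega))
    · rw [bn_nat, Nat.choose_eq_zero_of_lt (by omega)]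
      simpa using h0
  · unfold bn
    rw [if_neg hj, zero_mul]
    exact h0

lemma bn_le_one (K : ℕ) (j : ℤ) : bn K j ≤ 1 := by
  have := bn_cosh K j 0
  simpa using this

lemma bn_exp (K : ℕ) (hK : 1 ≤ K) (j : ℤ) :
    bn K j ≤ Real.exp (-((2 * (j : ℝ) - K) ^ 2 / (2 * K))) := by
  have hK0 : (0 : ℝ) < K := by exact_mod_cast hK
  obtain ⟨x, hx⟩ : ∃ x : ℝ, x = 2 * (j : ℝ) - K := ⟨_, rfl⟩
  have h1 := bn_cosh K j (x / K)
  rw [← hx] at h1 ⊢
  have h2 : Real.cosh (x / K) ^ K ≤ Real.exp (x ^ 2 / (2 * K)) := by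
    calc Real.cosh (x / K) ^ K ≤ Real.exp ((x / K) ^ 2 / 2) ^ K :=
          pow_le_pow_left₀ (Real.cosh_pos _).le (Real.cosh_le_exp_half_sq _) _
      _ = Real.exp (x ^ 2 / (2 * K)) := by
          rw [← Real.exp_nat_mul]
          congr 1
          field_simp
  have h3 : bn K j * Real.exp (x / K * x) ≤ Real.exp (x ^ 2 / (2 * K)) := h1.trans h2
  have h4 : Real.exp (x ^ 2 / (2 * K)) = Real.exp (-(x ^ 2 / (2 * K))) * Real.exp (x / K * x) := by
    rw [← Real.exp_add]
    congr 1
    field_simp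
    ring
  rw [h4] at h3
  exact le_of_mul_le_mul_right h3 (Real.exp_pos _)

/-- the one-step bounds -/
def Cen (K : ℕ) (j : ℤ) : Prop := 100 ≤ K ∧ 3 * |2 * j - K| ≤ K

def er (K : ℕ) (j : ℤ) : ℝ := (|2 * (j : ℝ) - K| + 1) / K

lemma er_eq (K : ℕ) (j : ℤ) : er K j = (((|2 * j - K| : ℤ) : ℝ) + 1) / K := by
  unfold er
  push_cast
  rfl

lemma step_j (K : ℕ) (j : ℤ) (h : Cen K j) : |bn K (j + 1) - bn K j| ≤ 10 * (bn K j * er K j) := by
  obtain ⟨h1, h2⟩ := h
  have hj : 0 ≤ j := by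
    rcases abs_cases (2 * j - K) with h | h <;> omega
  obtain ⟨m, rfl⟩ := Int.eq_ofNat_of_zero_le hj
  have hm : m ≤ K := by
    rcases abs_cases (2 * (m : ℤ) - K) with h | h <;> omega
  have hm3 : K ≤ 3 * m := by
    rcases abs_cases (2 * (m : ℤ) - K) with h | h <;> omega
  have hK0 : (0 : ℝ) < K := by exact_mod_cast (by omega : 0 < K)
  have e1 : bn K ((m : ℤ) + 1) * (m + 1) = bn K m * (K - m) := by
    have : ((m : ℤ) + 1) = ((m + 1 : ℕ) : ℤ) := by push_cast; ring
    rw [this, bn_nat, bn_nat]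
    have h3 := Nat.choose_succ_right_eq K m
    have h4 : ((K.choose (m + 1) : ℝ)) * (m + 1) = K.choose m * (K - m) := by
      rw [← Nat.cast_sub hm]
      exact_mod_cast h3
    field_simp
    exact h4
  have hmp : (0 : ℝ) < (m : ℝ) + 1 := by positivity
  have e2 : bn K ((m : ℤ) + 1) - bn K m = bn K m * (K - 2 * m - 1) / (m + 1) := by
    rw [eq_div_iff hmp.ne']
    linarith
  have hb := bn_nonneg K m
  rw [e2, abs_div, abs_mul, abs_of_nonneg hb, abs_of_pos hmp, div_le_iff₀ hmp]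
  have h5 : |(K : ℝ) - 2 * m - 1| ≤ |2 * ((m : ℤ) : ℝ) - K| + 1 := by
    rw [Int.cast_natCast]
    rcases abs_cases ((K : ℝ) - 2 * m - 1) with h | h <;>
      rcases abs_cases (2 * (m : ℝ) - K) with h' | h' <;> linarith
  have h6 : |2 * ((m : ℤ) : ℝ) - K| + 1 ≤ 10 * er K m * (m + 1) := by
    unfold er
    have h7 : (K : ℝ) ≤ 3 * m := by exact_mod_cast hm3
    have h8 : 10 * ((|2 * ((m : ℤ) : ℝ) - K| + 1) / K) * (m + 1) =
      (|2 * ((m : ℤ) : ℝ) - K| + 1) * (10 * (m + 1) / K) := by ring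
    rw [h8]
    apply le_mul_of_one_le_right (by positivity)
    rw [le_div_iff₀ hK0]
    linarith
  calc bn K m * |(K : ℝ) - 2 * m - 1| ≤ bn K m * (10 * er K m * (m + 1)) :=
        mul_le_mul_of_nonneg_left (h5.trans h6) hb
    _ = _ := by ring

lemma bn_symm (K : ℕ) (j : ℤ) (hj : 0 ≤ j) (hjK : j ≤ K) : bn K (K - j) = bn K j := by
  obtain ⟨m, rfl⟩ := Int.eq_ofNat_of_zero_le hj
  have hm : m ≤ K := by exact_mod_cast hjK
  have : ((K : ℤ) - m) = ((K - m : ℕ) : ℤ) := by
    rw [Nat.cast_sub hm]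
  rw [this, bn_nat, bn_nat, Nat.choose_symm hm]

lemma step_j' (K : ℕ) (j : ℤ) (h : Cen K j) : |bn K (j - 1) - bn K j| ≤ 10 * (bn K j * er K j) := by
  obtain ⟨h1, h2⟩ := h
  have hj : 1 ≤ j := by
    rcases abs_cases (2 * j - K) with h | h <;> omega
  have hjK : j ≤ K := by
    rcases abs_cases (2 * j - K) with h | h <;> omega
  have h3 : |2 * ((K : ℤ) - j) - K| = |2 * j - K| := by
    rw [← abs_neg]
    congr 1
    ring
  have h4 := step_j K (K - j) ⟨h1, by rw [h3]; exact h2⟩
  rw [er_eq, h3, ← er_eq, bn_symm K j (by omega) hjK] at h4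
  have h5 : (K : ℤ) - j + 1 = K - (j - 1) := by ring
  rw [h5, bn_symm K (j - 1) (by omega) (by omega)] at h4
  exact h4

lemma step_K (K : ℕ) (j : ℤ) (h : Cen K j) : |bn (K + 1) j - bn K j| ≤ 10 * (bn K j * er K j) := by
  obtain ⟨h1, h2⟩ := h
  have hj : 0 ≤ j := by
    rcases abs_cases (2 * j - K) with h | h <;> omega
  obtain ⟨m, rfl⟩ := Int.eq_ofNat_of_zero_le hj
  have hm : m ≤ K := by
    rcases abs_cases (2 * (m : ℤ) - K) with h | h <;> omega
  have hm3 : K ≤ 3 * (K - m) := by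
    rcases abs_cases (2 * (m : ℤ) - K) with h | h <;> omega
  have hK0 : (0 : ℝ) < K := by exact_mod_cast (by omega : 0 < K)
  have hmK : (m : ℝ) ≤ K := by exact_mod_cast hm
  have e1 : bn (K + 1) (m : ℤ) * (2 * (K + 1 - m)) = bn K m * (K + 1) := by
    rw [bn_nat, bn_nat]
    have h3 := Nat.choose_mul_succ_eq K m
    have h4 : (K.choose m : ℝ) * (K + 1) = (K + 1).choose m * (K + 1 - m) := by
      have h5 : ((K : ℝ) + 1 - m) = ((K + 1 - m : ℕ) : ℝ) := by
        rw [Nat.cast_sub (by omega)]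
        push_cast
        ring
      rw [h5]
      exact_mod_cast h3
    rw [pow_succ]
    field_simp
    linarith
  have hmp : (0 : ℝ) < 2 * ((K : ℝ) + 1 - m) := by linarith
  have e2 : bn (K + 1) (m : ℤ) - bn K m = bn K m * (2 * m - K - 1) / (2 * (K + 1 - m)) := by
    rw [eq_div_iff hmp.ne']
    linarith
  have hb := bn_nonneg K m
  rw [e2, abs_div, abs_mul, abs_of_nonneg hb, abs_of_pos hmp, div_le_iff₀ hmp]
  have h5 : |2 * (m : ℝ) - K - 1| ≤ |2 * ((m : ℤ) : ℝ) - K| + 1 := by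
    rw [Int.cast_natCast]
    rcases abs_cases (2 * (m : ℝ) - K - 1) with h | h <;>
      rcases abs_cases (2 * (m : ℝ) - K) with h' | h' <;> linarith
  have h6 : |2 * ((m : ℤ) : ℝ) - K| + 1 ≤ 10 * er K m * (2 * (K + 1 - m)) := by
    unfold er
    have h7 : (K : ℝ) ≤ 3 * (K - m) := by
      rw [← Nat.cast_sub hm]
      exact_mod_cast hm3
    have h8 : 10 * ((|2 * ((m : ℤ) : ℝ) - K| + 1) / K) * (2 * (K + 1 - m)) =
      (|2 * ((m : ℤ) : ℝ) - K| + 1) * (20 * (K + 1 - m) / K) := by ring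
    rw [h8]
    apply le_mul_of_one_le_right (by positivity)
    rw [le_div_iff₀ hK0]
    linarith
  calc bn K m * |2 * (m : ℝ) - K - 1| ≤ bn K m * (10 * er K m * (2 * (K + 1 - m))) :=
        mul_le_mul_of_nonneg_left (h5.trans h6) hb
    _ = _ := by ring

lemma step_K' (K : ℕ) (j : ℤ) (h : Cen (K + 1) j) :
    |bn K j - bn (K + 1) j| ≤ 10 * (bn (K + 1) j * er (K + 1) j) := by
  obtain ⟨h1, h2⟩ := h
  have hj : 0 ≤ j := by
    rcases abs_cases (2 * j - (K + 1 : ℕ)) with h | h <;> omega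
  obtain ⟨m, rfl⟩ := Int.eq_ofNat_of_zero_le hj
  have hm : m ≤ K := by
    rcases abs_cases (2 * (m : ℤ) - (K + 1 : ℕ)) with h | h <;> omega
  have hmK : (m : ℝ) ≤ K := by exact_mod_cast hm
  have e1 : bn (K + 1) (m : ℤ) * (2 * (K + 1 - m)) = bn K m * (K + 1) := by
    rw [bn_nat, bn_nat]
    have h3 := Nat.choose_mul_succ_eq K m
    have h4 : (K.choose m : ℝ) * (K + 1) = (K + 1).choose m * (K + 1 - m) := by
      have h5 : ((K : ℝ) + 1 - m) = ((K + 1 - m : ℕ) : ℝ) := by
        rw [Nat.cast_sub (by omega)]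
        push_cast
        ring
      rw [h5]
      exact_mod_cast h3
    rw [pow_succ]
    field_simp
    linarith
  have hK1 : (0 : ℝ) < (K : ℝ) + 1 := by positivity
  have e2 : bn K m - bn (K + 1) (m : ℤ) = bn (K + 1) m * (K + 1 - 2 * m) / (K + 1) := by
    rw [eq_div_iff hK1.ne']
    linarith
  have hb := bn_nonneg (K + 1) m
  rw [e2, abs_div, abs_mul, abs_of_nonneg hb, abs_of_pos hK1]
  unfold er
  have h3 : |(K : ℝ) + 1 - 2 * m| = |2 * ((m : ℤ) : ℝ) - (K + 1 : ℕ)| := by
    rw [← abs_neg]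
    congr 1
    push_cast
    ring
  rw [h3]
  have h4 : (0 : ℝ) ≤ |2 * ((m : ℤ) : ℝ) - (K + 1 : ℕ)| := abs_nonneg _
  have h5 : bn (K + 1) m * |2 * ((m : ℤ) : ℝ) - (K + 1 : ℕ)| / (K + 1) =
    bn (K + 1) m * (|2 * ((m : ℤ) : ℝ) - (K + 1 : ℕ)| / (K + 1)) := by ring
  have h6 : 10 * (bn (K + 1) m * ((|2 * ((m : ℤ) : ℝ) - (K + 1 : ℕ)| + 1) / (K + 1 : ℕ))) =
    bn (K + 1) m * (10 * (|2 * ((m : ℤ) : ℝ) - (K + 1 : ℕ)| + 1) / (K + 1)) := by
    push_cast
    ring
  rw [h5, h6]
  apply mul_le_mul_of_nonneg_left _ hb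
  apply div_le_div_of_nonneg_right _ hK1.le
  linarith

/-- all steps -/
lemma step_any (K K' : ℕ) (j j' : ℤ) (h : Cen K j)
    (hs : |(K' : ℤ) - K| + |j' - j| ≤ 1) : |bn K' j' - bn K j| ≤ 10 * (bn K j * er K j) := by
  have h0 : 0 ≤ 10 * (bn K j * er K j) := by
    have := bn_nonneg K j
    have : 0 ≤ er K j := by unfold er; positivity
    positivity
  rcases abs_cases ((K' : ℤ) - K) with h1 | h1 <;> rcases abs_cases (j' - j) with h2 | h2
  · have : (K' = K ∧ j' = j) ∨ (K' = K ∧ j' = j + 1) ∨ (K' = K + 1 ∧ j' = j) := by omega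
    rcases this with ⟨rfl, rfl⟩ | ⟨rfl, rfl⟩ | ⟨rfl, rfl⟩
    · simpa using h0
    · exact step_j _ _ h
    · exact step_K _ _ h
  · have : (K' = K ∧ j' = j - 1) := by omega
    obtain ⟨rfl, rfl⟩ := this
    exact step_j' _ _ h
  · have : (K = K' + 1 ∧ j' = j) := by omega
    obtain ⟨rfl, rfl⟩ := this
    exact step_K' _ _ h
  · omega

/-- a path -/
lemma path (K : ℕ) (j : ℤ) (hK : 1000 ≤ K) (hj : 4 * |2 * j - K| ≤ K) :
    ∀ s : ℕ, s ≤ 30 → ∀ (K' : ℕ) (j' : ℤ), |(K' : ℤ) - K| + |j' - j| ≤ s →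
    |bn K' j' - bn K j| ≤ (10000 : ℝ) ^ s * (bn K j * er K j) := by
  intro s
  have hb := bn_nonneg K j
  have he : 0 ≤ er K j := by unfold er; positivity
  induction s with
  | zero =>
    intro _ K' j' h
    have h1 := abs_nonneg ((K' : ℤ) - K)
    have h2 := abs_nonneg (j' - j)
    have h3 : |(K' : ℤ) - K| = 0 := by push_cast at h; omega
    have h4 : |j' - j| = 0 := by push_cast at h; omega
    rw [abs_eq_zero] at h3 h4
    have h5 : K' = K := by omega
    have h6 : j' = j := by omega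
    subst h5 h6
    rw [sub_self, abs_zero]
    positivity
  | succ s ih =>
    intro hs K' j' h
    obtain ⟨K1, j1, g1, g2⟩ : ∃ (K1 : ℕ) (j1 : ℤ), |(K1 : ℤ) - K| + |j1 - j| ≤ s ∧
        |(K' : ℤ) - K1| + |j' - j1| ≤ 1 := by
      push_cast at h
      rcases lt_trichotomy K' K with hlt | heq | hgt
      · refine ⟨K' + 1, j', ?_, ?_⟩
        · rcases abs_cases ((K' : ℤ) - K) with h1 | h1 <;>
            rcases abs_cases (((K' + 1 : ℕ) : ℤ) - K) with h2 | h2 <;> push_cast at * <;> omega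
        · rcases abs_cases ((K' : ℤ) - (K' + 1 : ℕ)) with h2 | h2 <;>
            rcases abs_cases (j' - j') with h3 | h3 <;> push_cast at * <;> omega
      · subst heq
        rw [sub_self, abs_zero, zero_add] at h
        rcases lt_trichotomy j' j with hlt | heq | hgt
        · refine ⟨K', j' + 1, ?_, ?_⟩
          · rw [sub_self, abs_zero, zero_add]
            rcases abs_cases (j' - j) with h1 | h1 <;>
              rcases abs_cases (j' + 1 - j) with h2 | h2 <;> omega
          · rw [sub_self, abs_zero, zero_add]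
            rcases abs_cases (j' - (j' + 1)) with h2 | h2 <;> omega
        · subst heq
          refine ⟨K', j', ?_, ?_⟩
          · simp
          · simp
        · refine ⟨K', j' - 1, ?_, ?_⟩
          · rw [sub_self, abs_zero, zero_add]
            rcases abs_cases (j' - j) with h1 | h1 <;>
              rcases abs_cases (j' - 1 - j) with h2 | h2 <;> omega
          · rw [sub_self, abs_zero, zero_add]
            rcases abs_cases (j' - (j' - 1)) with h2 | h2 <;> omega
      · refine ⟨K' - 1, j', ?_, ?_⟩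
        · have e : ((K' - 1 : ℕ) : ℤ) = K' - 1 := by
            rw [Nat.cast_sub (by omega)]
            simp
          rw [e]
          rcases abs_cases ((K' : ℤ) - K) with h1 | h1 <;>
            rcases abs_cases ((K' : ℤ) - 1 - K) with h2 | h2 <;> omega
        · have e : ((K' - 1 : ℕ) : ℤ) = K' - 1 := by
            rw [Nat.cast_sub (by omega)]
            simp
          rw [e, sub_self, abs_zero, add_zero]
          rcases abs_cases ((K' : ℤ) - (K' - 1)) with h2 | h2 <;> omega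
    have hsZ : (s : ℤ) ≤ 29 := by omega
    have i1 := ih (by omega) K1 j1 g1
    have hd : |2 * j1 - K1| ≤ |2 * j - K| + 60 := by
      rcases abs_cases ((K1 : ℤ) - K) with h1 | h1 <;>
        rcases abs_cases (j1 - j) with h2 | h2 <;>
        rcases abs_cases (2 * j1 - K1) with h3 | h3 <;>
        rcases abs_cases (2 * j - K) with h4 | h4 <;> omega
    have hK1 : K ≤ K1 + 30 := by
      rcases abs_cases ((K1 : ℤ) - K) with h1 | h1 <;>
        rcases abs_cases (j1 - j) with h2 | h2 <;> omega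
    have hcen : Cen K1 j1 := ⟨by omega, by omega⟩
    have i2 := step_any K1 K' j1 j' hcen g2
    have hb1 := bn_nonneg K1 j1
    have hKr : (1000 : ℝ) ≤ K := by exact_mod_cast hK
    have hK0 : (0 : ℝ) < K := by linarith
    have he1 : er K j ≤ 1 := by
      unfold er
      rw [div_le_one hK0]
      have h4 : (4 : ℝ) * |2 * (j : ℝ) - K| ≤ K := by exact_mod_cast hj
      linarith
    have he2 : er K1 j1 ≤ 200 * er K j := by
      rw [er_eq, er_eq]
      have hK1r : (K : ℝ) ≤ K1 + 30 := by exact_mod_cast hK1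
      have hK10 : (0 : ℝ) < K1 := by linarith
      have hdr : ((|2 * j1 - K1| : ℤ) : ℝ) ≤ ((|2 * j - K| : ℤ) : ℝ) + 60 := by exact_mod_cast hd
      have h0 : (0 : ℝ) ≤ ((|2 * j - K| : ℤ) : ℝ) := by exact_mod_cast abs_nonneg _
      rw [div_le_iff₀ hK10]
      have e1 : 200 * ((((|2 * j - K| : ℤ) : ℝ) + 1) / K) * K1 =
        (((|2 * j - K| : ℤ) : ℝ) + 1) * (200 * K1 / K) := by ring
      rw [e1]
      have e2 : (100 : ℝ) ≤ 200 * K1 / K := by
        rw [le_div_iff₀ hK0]
        linarith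
      calc ((|2 * j1 - K1| : ℤ) : ℝ) + 1 ≤ (((|2 * j - K| : ℤ) : ℝ) + 1) * 100 := by linarith
        _ ≤ _ := mul_le_mul_of_nonneg_left e2 (by linarith)
    have hone : (1 : ℝ) ≤ 10000 ^ s := one_le_pow₀ (by norm_num)
    have hb2 : bn K1 j1 ≤ 2 * 10000 ^ s * bn K j := by
      have h1 := (abs_le.1 i1).2
      have h2 : (10000 : ℝ) ^ s * (bn K j * er K j) ≤ 10000 ^ s * (bn K j * 1) := by
        apply mul_le_mul_of_nonneg_left _ (by positivity)
        exact mul_le_mul_of_nonneg_left he1 hb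
      nlinarith
    have i3 : 10 * (bn K1 j1 * er K1 j1) ≤ 4000 * 10000 ^ s * (bn K j * er K j) := by
      have he10 : 0 ≤ er K1 j1 := by unfold er; positivity
      calc 10 * (bn K1 j1 * er K1 j1) ≤ 10 * ((2 * 10000 ^ s * bn K j) * (200 * er K j)) := by
            apply mul_le_mul_of_nonneg_left _ (by norm_num)
            exact mul_le_mul hb2 he2 he10 (by positivity)
        _ = _ := by ring
    calc |bn K' j' - bn K j| ≤ |bn K' j' - bn K1 j1| + |bn K1 j1 - bn K j| := abs_sub_le _ _ _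
      _ ≤ 4000 * 10000 ^ s * (bn K j * er K j) + 10000 ^ s * (bn K j * er K j) :=
          add_le_add (i2.trans i3) i1
      _ = 4001 * (10000 ^ s * (bn K j * er K j)) := by ring
      _ ≤ 10000 * (10000 ^ s * (bn K j * er K j)) := by
          apply mul_le_mul_of_nonneg_right (by norm_num)
          positivity
      _ = 10000 ^ (s + 1) * (bn K j * er K j) := by rw [pow_succ]; ring

theorem bcm : Pool.Agent.Q91.PT.S_bcm := by
  refine ⟨10000 ^ 30 + Real.exp 10, 1 / 100, by positivity, by norm_num, ?_⟩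
  intro K K' j j' hK hKK hjj
  have hb := bn_nonneg K j
  have hb' := bn_nonneg K' j'
  have hb1 := bn_le_one K j
  have hb1' := bn_le_one K' j'
  have he : 0 ≤ er K j := by unfold er; positivity
  have hC : (0 : ℝ) < 10000 ^ 30 + Real.exp 10 := by positivity
  have hT1 : 0 ≤ (10000 ^ 30 + Real.exp 10) * bn K j * er K j := by positivity
  have hT2 : 0 ≤ (10000 ^ 30 + Real.exp 10) * Real.exp (-(1 / 100) * K) := by positivity
  show _ ≤ (10000 ^ 30 + Real.exp 10) * bn K j * er K j + _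
  by_cases hK1 : 1000 ≤ K
  · have hKr : (1000 : ℝ) ≤ K := by exact_mod_cast hK1
    by_cases hj : 4 * |2 * j - K| ≤ K
    · have h1 := path K j hK1 hj 30 le_rfl K' j' (by push_cast; omega)
      have h2 : (10000 : ℝ) ^ 30 * (bn K j * er K j) ≤
          (10000 ^ 30 + Real.exp 10) * bn K j * er K j := by
        rw [mul_assoc]
        apply mul_le_mul_of_nonneg_right _ (by positivity)
        linarith [Real.exp_pos 10]
      linarith
    · rw [not_le] at hj
      have key : ∀ (N : ℕ) (i : ℤ), (1 : ℝ) / 5 * K ≤ |2 * (i : ℝ) - N| → 1 ≤ N →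
          (N : ℝ) ≤ 101 / 100 * K → bn N i ≤ Real.exp (-(1 / 100) * K) := by
        intro N i h1 h2 h3
        refine (bn_exp N h2 i).trans (Real.exp_le_exp.2 ?_)
        have h4 : (1 / 5 * (K : ℝ)) ^ 2 ≤ (2 * (i : ℝ) - N) ^ 2 := by
          rw [← sq_abs (2 * (i : ℝ) - N)]
          exact pow_le_pow_left₀ (by positivity) h1 2
        have hN0 : (0 : ℝ) < N := by exact_mod_cast h2
        have h5 : 1 / 100 * K ≤ (2 * (i : ℝ) - N) ^ 2 / (2 * N) := by
          rw [le_div_iff₀ (by positivity)]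
          nlinarith
        linarith
      have hjr : (K : ℝ) < 4 * |2 * (j : ℝ) - K| := by exact_mod_cast hj
      have k1 : bn K j ≤ Real.exp (-(1 / 100) * K) := key K j (by linarith) hK (by linarith)
      have k2 : bn K' j' ≤ Real.exp (-(1 / 100) * K) := by
        have g1 : |2 * j - K| ≤ |2 * j' - K'| + 50 := by
          rcases abs_cases ((K' : ℤ) - K) with h1 | h1 <;>
            rcases abs_cases (j' - j) with h2 | h2 <;>
            rcases abs_cases (2 * j' - K') with h3 | h3 <;>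
            rcases abs_cases (2 * j - K) with h4 | h4 <;> omega
        have g2 : K' ≤ K + 10 := by
          rcases abs_cases ((K' : ℤ) - K) with h1 | h1 <;> omega
        have g3 : K ≤ K' + 10 := by
          rcases abs_cases ((K' : ℤ) - K) with h1 | h1 <;> omega
        have g1r : |2 * (j : ℝ) - K| ≤ |2 * (j' : ℝ) - K'| + 50 := by exact_mod_cast g1
        have g2r : (K' : ℝ) ≤ K + 10 := by exact_mod_cast g2
        exact key K' j' (by linarith) (by omega) (by linarith)
      have h3 : |bn K' j' - bn K j| ≤ Real.exp (-(1 / 100) * K) := by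
        rw [abs_le]
        constructor <;> linarith
      have h4 : Real.exp (-(1 / 100) * (K : ℝ)) ≤
          (10000 ^ 30 + Real.exp 10) * Real.exp (-(1 / 100) * K) := by
        apply le_mul_of_one_le_left (Real.exp_pos _).le
        have := Real.exp_pos 10
        have : (1 : ℝ) ≤ 10000 ^ 30 := one_le_pow₀ (by norm_num)
        linarith
      linarith
  · have hKr : (K : ℝ) ≤ 1000 := by exact_mod_cast (by omega : K ≤ 1000)
    have h3 : |bn K' j' - bn K j| ≤ 1 := by
      rw [abs_le]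
      constructor <;> linarith
    have h4 : 1 ≤ (10000 ^ 30 + Real.exp 10) * Real.exp (-(1 / 100) * K) := by
      have h5 : Real.exp (-10) ≤ Real.exp (-(1 / 100) * (K : ℝ)) :=
        Real.exp_le_exp.2 (by linarith)
      have h6 : Real.exp 10 * Real.exp (-10) = 1 := by
        rw [← Real.exp_add]
        norm_num
      have h7 : (0 : ℝ) < Real.exp (-(1 / 100) * (K : ℝ)) := Real.exp_pos _
      have h8 : (0 : ℝ) < (10000 : ℝ) ^ 30 := by positivity
      calc (1 : ℝ) = Real.exp 10 * Real.exp (-10) := h6.symm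
        _ ≤ Real.exp 10 * Real.exp (-(1 / 100) * (K : ℝ)) :=
            mul_le_mul_of_nonneg_left h5 (Real.exp_pos _).le
        _ ≤ _ := by
            apply mul_le_mul_of_nonneg_right _ h7.le
            linarith
    linarith

end

end Pool.Agent.Q129.PT
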