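import Pool.Agent.Q91.PT.Stm3

/-! # Project PT, job SEQ: real analysis -/

set_option autoImplicit false

namespace Pool.Agent.Q129.PT

open Finset

theorem seq : Pool.Agent.Q91.PT.S_seq := by
  refine ⟨40, 1 / 6400, by norm_num, by norm_num, ?_⟩
  intro n H δ b hn hH hδ hc hδn hwin hbn hconv
  obtain ⟨ε, hε⟩ : ∃ ε : ℝ, ε = 40 * Real.sqrt (δ * H) := ⟨_, rfl⟩
  rw [← hε]
  have hδH : 0 < δ * H := by positivity
  have hε0 : 0 < ε := by rw [hε]; positivity
  have hε2 : ε ^ 2 = 1600 * (δ * H) := by
    rw [hε, mul_pow, Real.sq_sqrt hδH.le]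
    norm_num
  have hεle : ε ≤ 1 / 2 := by
    have : ε ^ 2 ≤ (1 / 2) ^ 2 := by rw [hε2]; linarith
    exact (abs_le_of_sq_le_sq' this (by norm_num)).2
  have hδ' : δ ≤ 1 / 6400 := by nlinarith
  have hεδ : 128 * δ ≤ ε := by
    have : (128 * δ) ^ 2 ≤ ε ^ 2 := by
      rw [hε2]
      nlinarith
    exact (abs_le_of_sq_le_sq' this hε0.le).2
  obtain ⟨J, hJ⟩ : ∃ J : ℕ, J = ⌊ε / (64 * δ)⌋₊ := ⟨_, rfl⟩
  have h64 : 0 < 64 * δ := by positivity
  have hJ1 : (J : ℝ) * (64 * δ) ≤ ε := by
    have : (J : ℝ) ≤ ε / (64 * δ) := by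
      rw [hJ]
      exact Nat.floor_le (by positivity)
    rwa [le_div_iff₀ h64] at this
  have hJ2 : ε < ((J : ℝ) + 1) * (64 * δ) := by
    have : ε / (64 * δ) < (J : ℝ) + 1 := by
      rw [hJ]
      exact Nat.lt_floor_add_one _
    rwa [div_lt_iff₀ h64] at this
  have hJ3 : 8 * H < ε * J := by
    have h1 : ε < J * (128 * δ) := by nlinarith
    have h2 : ε * ε < ε * (J * (128 * δ)) := mul_lt_mul_of_pos_left h1 hε0
    have h3 : δ * (1600 * H) < δ * (128 * (ε * J)) := by
      calc δ * (1600 * H) = ε ^ 2 := by rw [hε2]; ring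
        _ = ε * ε := by ring
        _ < ε * (J * (128 * δ)) := h2
        _ = δ * (128 * (ε * J)) := by ring
    have h4 := lt_of_mul_lt_mul_left h3 hδ.le
    linarith
  have hJn : 4 * J + 8 ≤ n := by
    have h1 : δ * (((4 * J + 8 : ℕ) : ℝ)) ≤ δ * n := by
      push_cast
      nlinarith
    exact_mod_cast le_of_mul_le_mul_left h1 hδ
  have hb0 : 0 < b n := lt_of_lt_of_le (Real.exp_pos _) hbn
  have h8 : Real.exp (-8 * H) ≤ Real.exp (-H) := Real.exp_le_exp.2 (by linarith)
  have h80 : 0 < Real.exp (-8 * H) := Real.exp_pos _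
  rw [abs_le]
  constructor
  · -- lower bound
    by_contra hcon
    rw [not_le] at hcon
    have h0 : b (n + 2) ≤ (1 - ε) * b n := by
      have h1 : b (n + 2) / b n < 1 - ε := by linarith
      rw [div_lt_iff₀ hb0] at h1
      exact h1.le
    have key : ∀ i : ℕ, i ≤ J → b n ≤ b (n - 2 * i) ∧
        b (n - 2 * i + 2) ≤ (1 - ε + 32 * δ * i) * b (n - 2 * i) ∧
        b n ≤ (1 - ε / 2) ^ i * b (n - 2 * i) := by
      intro i
      induction i with
      | zero =>
        intro _
        simp only [mul_zero, Nat.sub_zero, Nat.cast_zero, add_zero, pow_zero, one_mul, le_refl,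
          and_true, true_and]
        exact h0
      | succ i ih =>
        intro hi
        obtain ⟨i1, i2, i3⟩ := ih (by omega)
        have hiJ : (i : ℝ) + 1 ≤ J := by exact_mod_cast hi
        obtain ⟨m, hm⟩ : ∃ m : ℕ, m = n - 2 * (i + 1) := ⟨_, rfl⟩
        have hm2 : n - 2 * i = m + 2 := by omega
        rw [← hm]
        rw [hm2] at i1 i2 i3
        have hc := hconv m (by omega) (by omega) (by omega)
        obtain ⟨w1, w2⟩ := hwin m (by omega) (by omega) (by omega)
        have hB : 0 < b (m + 2) := lt_of_lt_of_le hb0 i1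
        have he : 32 * δ * i ≤ ε / 2 - 32 * δ := by nlinarith
        have he0 : 0 ≤ 32 * δ * i := by positivity
        have hBe : Real.exp (-8 * H) ≤ b (m + 2) := h8.trans (hbn.trans i1)
        have s1 : b (m + 2) ≤ (1 - ε + 32 * δ * (i + 1 : ℕ)) * b m := by
          have e1 : b m * b (m + 4) ≤ b m * ((1 - ε + 32 * δ * i) * b (m + 2)) :=
            mul_le_mul_of_nonneg_left i2 w1
          have e2 : (b m + b (m + 2) + Real.exp (-8 * H)) ^ 2 ≤ (b m + 2 * b (m + 2)) ^ 2 := by
            apply pow_le_pow_left₀ (by positivity)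
            linarith
          have e3 : b (m + 2) ^ 2 ≤ b m * ((1 - ε + 32 * δ * i) * b (m + 2)) +
              δ * (b m + 2 * b (m + 2)) ^ 2 :=
            hc.trans (add_le_add e1 (mul_le_mul_of_nonneg_left e2 hδ.le))
          push_cast
          by_cases ha : b m ≤ 2 * b (m + 2)
          · have e4 : (b m + 2 * b (m + 2)) ^ 2 ≤ 16 * b (m + 2) ^ 2 := by
              have : (b m + 2 * b (m + 2)) ^ 2 ≤ (4 * b (m + 2)) ^ 2 := by
                apply pow_le_pow_left₀ (by positivity)
                linarith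
              calc _ ≤ (4 * b (m + 2)) ^ 2 := this
                _ = _ := by ring
            have e5 : b (m + 2) * ((1 - 16 * δ) * b (m + 2)) ≤
                b (m + 2) * ((1 - ε + 32 * δ * i) * b m) := by
              have := mul_le_mul_of_nonneg_left e4 hδ.le
              nlinarith
            have e6 := le_of_mul_le_mul_left e5 hB
            have e7 : (1 - ε + 32 * δ * i) * b m ≤
                (1 - 16 * δ) * ((1 - ε + 32 * δ * (i + 1)) * b m) := by
              rw [← mul_assoc]
              apply mul_le_mul_of_nonneg_right _ w1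
              nlinarith
            exact le_of_mul_le_mul_left (e6.trans e7) (by linarith)
          · rw [not_le] at ha
            have : (1 / 2) * b m ≤ (1 - ε + 32 * δ * (i + 1)) * b m := by
              apply mul_le_mul_of_nonneg_right _ w1
              nlinarith
            linarith
        have s2 : b (m + 2) ≤ (1 - ε / 2) * b m := by
          refine s1.trans (mul_le_mul_of_nonneg_right ?_ w1)
          push_cast
          linarith
        refine ⟨?_, ?_, ?_⟩
        · refine i1.trans (s2.trans ?_)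
          nlinarith
        · exact s1
        · rw [pow_succ, mul_assoc]
          exact i3.trans (mul_le_mul_of_nonneg_left s2 (pow_nonneg (by linarith) _))
    obtain ⟨_, _, k3⟩ := key J le_rfl
    obtain ⟨w1, w2⟩ := hwin (n - 2 * J) (by omega) (by omega) (by omega)
    have k4 : (1 - ε / 2) ^ J ≤ Real.exp (-(J * (ε / 2))) := by
      have h1 : 1 - ε / 2 ≤ Real.exp (-(ε / 2)) := by
        have := Real.add_one_le_exp (-(ε / 2))
        linarith
      calc (1 - ε / 2) ^ J ≤ Real.exp (-(ε / 2)) ^ J := pow_le_pow_left₀ (by linarith) h1 _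
        _ = Real.exp (-(J * (ε / 2))) := by
          rw [← Real.exp_nat_mul]
          congr 1
          ring
    have k5 : Real.exp (-H) ≤ Real.exp (-(J * (ε / 2)) + H) := by
      rw [Real.exp_add]
      exact hbn.trans (k3.trans (mul_le_mul k4 w2 w1 (Real.exp_pos _).le))
    rw [Real.exp_le_exp] at k5
    linarith
  · -- upper bound
    by_contra hcon
    rw [not_le] at hcon
    have h0 : (1 + ε) * b n ≤ b (n + 2) := by
      have h1 : 1 + ε < b (n + 2) / b n := by linarith
      rw [lt_div_iff₀ hb0] at h1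
      exact h1.le
    have key : ∀ i : ℕ, i ≤ J → b n ≤ b (n + 2 * i) ∧
        ((1 + ε) * (1 - 9 * δ * i)) * b (n + 2 * i) ≤ b (n + 2 * i + 2) ∧
        b n * (1 + ε / 2) ^ i ≤ b (n + 2 * i) := by
      intro i
      induction i with
      | zero =>
        intro _
        simp only [mul_zero, add_zero, Nat.cast_zero, sub_zero, mul_one, pow_zero, le_refl,
          and_true, true_and]
        exact h0
      | succ i ih =>
        intro hi
        obtain ⟨i1, i2, i3⟩ := ih (by omega)
        have hiJ : (i : ℝ) + 1 ≤ J := by exact_mod_cast hi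
        obtain ⟨m, hm⟩ : ∃ m : ℕ, m = n + 2 * i := ⟨_, rfl⟩
        have hm2 : n + 2 * (i + 1) = m + 2 := by omega
        rw [← hm] at i1 i2 i3
        rw [hm2]
        have hc := hconv m (by omega) (by omega) (by omega)
        have hB : 0 < b m := lt_of_lt_of_le hb0 i1
        have he : 9 * δ * i ≤ 9 * ε / 64 - 9 * δ := by nlinarith
        have he0 : 0 ≤ 9 * δ * i := by positivity
        have hBe : Real.exp (-8 * H) ≤ b m := h8.trans (hbn.trans i1)
        have s0 : 1 + ε / 2 ≤ (1 + ε) * (1 - 9 * δ * i) := by nlinarith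
        have s1 : (1 + ε / 2) * b m ≤ b (m + 2) :=
          (mul_le_mul_of_nonneg_right s0 hB.le).trans i2
        have s2 : b m ≤ b (m + 2) := by nlinarith
        have e2 : (b m + b (m + 2) + Real.exp (-8 * H)) ^ 2 ≤ (3 * b (m + 2)) ^ 2 := by
          apply pow_le_pow_left₀ (by linarith)
          linarith
        have e3 : b (m + 2) * ((1 - 9 * δ) * b (m + 2)) ≤ b m * b (m + 4) := by
          have := mul_le_mul_of_nonneg_left e2 hδ.le
          nlinarith
        have hB2 : 0 < b (m + 2) := lt_of_lt_of_le hB s2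
        have e4 : b m * (((1 + ε) * (1 - 9 * δ * (i + 1))) * b (m + 2)) ≤ b m * b (m + 4) := by
          refine le_trans ?_ e3
          have e5 : (1 + ε) * (1 - 9 * δ * (i + 1)) ≤
              (1 - 9 * δ) * ((1 + ε) * (1 - 9 * δ * i)) := by
            have : 0 ≤ (1 + ε) * (81 * δ ^ 2 * i) := by positivity
            nlinarith
          calc b m * (((1 + ε) * (1 - 9 * δ * (i + 1))) * b (m + 2))
              = ((1 + ε) * (1 - 9 * δ * (i + 1))) * (b m * b (m + 2)) := by ring
            _ ≤ ((1 - 9 * δ) * ((1 + ε) * (1 - 9 * δ * i))) * (b m * b (m + 2)) :=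
                mul_le_mul_of_nonneg_right e5 (by positivity)
            _ = ((1 - 9 * δ) * b (m + 2)) * (((1 + ε) * (1 - 9 * δ * i)) * b m) := by ring
            _ ≤ ((1 - 9 * δ) * b (m + 2)) * b (m + 2) := by
                apply mul_le_mul_of_nonneg_left i2
                apply mul_nonneg _ hB2.le
                linarith
            _ = b (m + 2) * ((1 - 9 * δ) * b (m + 2)) := by ring
        have e6 := le_of_mul_le_mul_left e4 hB
        refine ⟨i1.trans s2, ?_, ?_⟩
        · push_cast
          exact e6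
        · rw [pow_succ, ← mul_assoc]
          calc b n * (1 + ε / 2) ^ i * (1 + ε / 2) ≤ b m * (1 + ε / 2) :=
                mul_le_mul_of_nonneg_right i3 (by linarith)
            _ = (1 + ε / 2) * b m := by ring
            _ ≤ b (m + 2) := s1
    obtain ⟨_, _, k3⟩ := key J le_rfl
    obtain ⟨w1, w2⟩ := hwin (n + 2 * J) (by omega) (by omega) (by omega)
    have k4 : Real.exp (J * (ε / 4)) ≤ (1 + ε / 2) ^ J := by
      have h1 : Real.exp (ε / 4) ≤ 1 + ε / 2 := by
        have h2 := Real.add_one_le_exp (-(ε / 4))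
        have h3 : Real.exp (ε / 4) * Real.exp (-(ε / 4)) = 1 := by
          rw [← Real.exp_add]
          simp
        have h4 : Real.exp (ε / 4) * (1 - ε / 4) ≤ 1 := by
          rw [← h3]
          apply mul_le_mul_of_nonneg_left _ (Real.exp_pos _).le
          linarith
        have h5 : (1 : ℝ) ≤ (1 + ε / 2) * (1 - ε / 4) := by nlinarith
        exact le_of_mul_le_mul_right (h4.trans h5) (by linarith)
      calc Real.exp (J * (ε / 4)) = Real.exp (ε / 4) ^ J := by rw [← Real.exp_nat_mul]
        _ ≤ (1 + ε / 2) ^ J := pow_le_pow_left₀ (Real.exp_pos _).le h1 _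
    have k5 : Real.exp (-H + J * (ε / 4)) ≤ Real.exp H := by
      rw [Real.exp_add]
      refine le_trans ?_ (k3.trans w2)
      exact mul_le_mul hbn k4 (Real.exp_pos _).le hb0.le
    rw [Real.exp_le_exp] at k5
    linarith

end Pool.Agent.Q129.PT
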